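import Mathlib

/-!
# Implication zroupoids: the zero-multiplication atom is join-prime among varieties

We prove that if two varieties of implication zroupoids both omit the variety `ZM` of
zero-multiplication implication zroupoids, then so does their join.
-/

set_option autoImplicit false

namespace Pool.Agent.Results.MP_5bed1d_al.ZMJoin

universe u

/-- An implication zroupoid: an algebra `⟨A; →, 0⟩` of type `(2,0)` with
`(x → y) → z = ((z' → x) → (y → z)')'` and `0'' = 0`, where `u' = u → 0`. -/
class ImplicationZroupoid (A : Type u) where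
  /-- the binary operation -/
  imp : A → A → A
  /-- the constant -/
  zero : A
  /-- the first identity, with `u' = u → 0` written out -/
  imp_imp : ∀ x y z : A,
    imp (imp x y) z = imp (imp (imp (imp z zero) x) (imp (imp y z) zero)) zero
  /-- the second identity `0'' = 0` -/
  zero_neg_neg : imp (imp zero zero) zero = zero

open ImplicationZroupoid

/-- The derived operation `x' = x → 0`. -/
def neg {A : Type u} [ImplicationZroupoid A] (x : A) : A := imp x zero

/-- Homomorphisms of algebras of type `(2,0)`. -/
structure IsHom {A B : Type u} [ImplicationZroupoid A] [ImplicationZroupoid B]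
    (f : A → B) : Prop where
  map_imp : ∀ x y : A, f (imp x y) = imp (f x) (f y)
  map_zero : f zero = zero

/-- A bundled implication zroupoid. -/
structure IZAlg : Type (u + 1) where
  /-- the underlying set -/
  carrier : Type u
  /-- the operations and identities -/
  [str : ImplicationZroupoid carrier]

attribute [instance] IZAlg.str

/-- The product of a family of implication zroupoids, with coordinatewise operations. -/
instance piStr {I : Type u} (A : I → Type u) [∀ i, ImplicationZroupoid (A i)] :
    ImplicationZroupoid (∀ i, A i) where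
  imp x y := fun i => imp (x i) (y i)
  zero := fun _ => zero
  imp_imp x y z := by funext i; exact imp_imp (x i) (y i) (z i)
  zero_neg_neg := by funext i; exact zero_neg_neg

/-- The product of a family of bundled implication zroupoids. -/
def IZAlg.pi {I : Type u} (A : I → IZAlg.{u}) : IZAlg.{u} := ⟨∀ i, (A i).carrier⟩

/-- A variety of implication zroupoids: a class closed under homomorphic images, subalgebras
(up to isomorphism) and arbitrary direct products. -/
structure IsVariety (X : Set IZAlg.{u}) : Prop where
  /-- closure under homomorphic images -/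
  image : ∀ (A B : IZAlg.{u}) (f : A.carrier → B.carrier), A ∈ X → IsHom f →
    Function.Surjective f → B ∈ X
  /-- closure under subalgebras and their isomorphic copies -/
  sub : ∀ (A B : IZAlg.{u}) (f : A.carrier → B.carrier), B ∈ X → IsHom f →
    Function.Injective f → A ∈ X
  /-- closure under direct products (the empty product included) -/
  prod : ∀ (I : Type u) (A : I → IZAlg.{u}), (∀ i, A i ∈ X) → IZAlg.pi A ∈ X

/-- The join `X ∨ Y` of two varieties: the least variety containing `X ∪ Y`,
that is, the intersection of all varieties containing `X ∪ Y`. -/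
def join (X Y : Set IZAlg.{u}) : Set IZAlg.{u} :=
  {A | ∀ V : Set IZAlg.{u}, IsVariety V → X ∪ Y ⊆ V → A ∈ V}

/-- The class `ZM` of implication zroupoids satisfying `x → y ≈ 0`. -/
def ZM : Set IZAlg.{u} := {A | ∀ x y : A.carrier, imp x y = zero}

section Identities

variable {A : Type u} [ImplicationZroupoid A]

/-- The identity `x'''' = x''` holds in every implication zroupoid. -/
theorem neg4 (a : A) : neg (neg (neg (neg a))) = neg (neg a) := by
  have e0 : ∀ x0 x1 x2 : A, imp (imp (imp (imp x2 zero) x0) (imp (imp x1 x2) zero)) zero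
      = imp (imp x0 x1) x2 := fun x y z => (imp_imp x y z).symm
  have e1 : imp (imp (zero : A) zero) zero = zero := zero_neg_neg
  have e7 : ∀ x0 : A, imp (imp (imp (imp zero zero) x0) zero) zero = imp (imp x0 zero) zero := by
    intro x0
    have h := e0 x0 zero zero
    rw [e1] at h
    exact h
  have e17 : ∀ x0 x1 : A, imp (imp x0 (imp (imp (imp zero zero) x1) zero)) zero
      = imp (imp x0 (imp x1 zero)) zero := by
    intro x0 x1
    rw [← e0 x0 (imp (imp (imp zero zero) x1) zero) zero, e7 x1, e0 x0 (imp x1 zero) zero]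
  have e59 : ∀ x0 x1 x2 : A, imp (imp x0 x1) (imp (imp (imp zero zero) x2) zero)
      = imp (imp x0 x1) (imp x2 zero) := by
    intro x0 x1 x2
    rw [← e0 x0 x1 (imp (imp (imp zero zero) x2) zero), e17 x1 x2, e7 x2,
      e0 x0 x1 (imp x2 zero)]
  have e196 : ∀ x0 x1 x2 : A, imp (imp (imp (imp (imp zero zero) x0) zero) x1) x2
      = imp (imp (imp x0 zero) x1) x2 := by
    intro x0 x1 x2
    rw [← e0 (imp (imp (imp zero zero) x0) zero) x1 x2, e59 x2 zero x0, e0 (imp x0 zero) x1 x2]
  have e16 : ∀ x0 x1 : A, imp (imp x0 (imp (imp zero zero) x1)) zero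
      = imp (imp x0 x1) zero := by
    intro x0 x1
    rw [← e0 x0 (imp (imp zero zero) x1) zero, e7 x1, e0 x0 x1 zero]
  have e267 : ∀ x0 x1 x2 : A, imp (imp x0 x1) (imp (imp zero zero) x2)
      = imp (imp x0 x1) x2 := by
    intro x0 x1 x2
    rw [← e0 x0 x1 (imp (imp zero zero) x2),
      e196 x2 x0 (imp (imp x1 (imp (imp zero zero) x2)) zero), e16 x1 x2, e0 x0 x1 x2]
  have e294 : ∀ x0 x1 x2 : A, imp (imp (imp (imp zero zero) x0) x1) x2
      = imp (imp x0 x1) x2 := by
    intro x0 x1 x2
    rw [← e0 (imp (imp zero zero) x0) x1 x2, e267 x2 zero x0, e0 x0 x1 x2]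
  have e313 : ∀ x0 x1 : A, imp (imp x0 (imp (imp x1 zero) zero)) zero
      = imp (imp x0 x1) zero := by
    intro x0 x1
    rw [← e294 x0 (imp (imp x1 zero) zero) zero]
    exact e0 x0 x1 zero
  have e360 : ∀ x0 x1 : A, imp (imp (imp (imp x0 zero) zero) zero) x1
      = imp (imp x0 zero) x1 := by
    intro x0 x1
    rw [← e294 (imp (imp x0 zero) zero) zero x1, e313 (imp zero zero) x0, e294 x0 zero x1]
  exact e360 a zero

/-- Every element of the form `(x → y) → z` is fixed by `''`. -/
theorem neg_neg_imp_imp (x y z : A) : neg (neg (imp (imp x y) z)) = imp (imp x y) z := by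
  have h : ∀ x y z : A, ∃ w : A, imp (imp x y) z = neg w ∧
      ∃ a b c : A, w = imp (imp a b) c := by
    intro x y z
    exact ⟨imp (imp (imp z zero) x) (imp (imp y z) zero), imp_imp x y z,
      imp z zero, x, imp (imp y z) zero, rfl⟩
  obtain ⟨w, hw, a, b, c, hw'⟩ := h x y z
  obtain ⟨v, hv, -⟩ := h a b c
  have : imp (imp x y) z = neg (neg v) := by rw [hw, hw', hv]
  rw [this, neg4]

end Identities

/-- The subalgebra generated by `a`, as a predicate. -/
inductive Gen {A : Type u} [ImplicationZroupoid A] (a : A) : A → Prop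
  | base : Gen a a
  | zero : Gen a zero
  | imp {x y : A} : Gen a x → Gen a y → Gen a (imp x y)

/-- If `a` is a value of `→` inside the subalgebra it generates, then `a'' = a`. -/
theorem neg_neg_of_imp_eq {A : Type u} [ImplicationZroupoid A] {a u v : A}
    (hu : Gen a u) (h : imp u v = a) : neg (neg a) = a := by
  cases hu with
  | base =>
    have : a = imp (imp a v) v := by rw [h, h]
    rw [this]; exact neg_neg_imp_imp a v v
  | zero =>
    have : a = imp (imp (neg zero) zero) v := by
      have h0 : imp (neg (zero : A)) zero = zero := zero_neg_neg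
      rw [h0, h]
    rw [this]; exact neg_neg_imp_imp _ _ _
  | imp hx hy =>
    rw [← h]; exact neg_neg_imp_imp _ _ _

/-- The implication zroupoid structure on the subalgebra generated by `a`. -/
instance genStr {A : Type u} [ImplicationZroupoid A] (a : A) :
    ImplicationZroupoid {x : A // Gen a x} where
  imp x y := ⟨imp x.1 y.1, Gen.imp x.2 y.2⟩
  zero := ⟨zero, Gen.zero⟩
  imp_imp x y z := Subtype.ext (imp_imp x.1 y.1 z.1)
  zero_neg_neg := Subtype.ext zero_neg_neg

/-- The two-element implication zroupoid with `x → y = 0`. -/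
def twoZM : IZAlg.{u} where
  carrier := ULift.{u} Bool
  str :=
    { imp := fun _ _ => ⟨false⟩
      zero := ⟨false⟩
      imp_imp := fun _ _ _ => rfl
      zero_neg_neg := rfl }

theorem twoZM_mem_ZM : twoZM.{u} ∈ ZM.{u} := fun _ _ => rfl

/-- A variety containing the two-element zero-multiplication algebra contains `ZM`. -/
theorem ZM_subset_of_twoZM_mem {X : Set IZAlg.{u}} (hX : IsVariety X)
    (h : twoZM.{u} ∈ X) : ZM.{u} ⊆ X := by
  classical
  intro Z hZ
  refine hX.sub Z (IZAlg.pi (fun _ : Z.carrier => twoZM.{u}))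
    (fun z w => (⟨decide (z = w ∧ w ≠ zero)⟩ : ULift.{u} Bool))
    (hX.prod _ _ fun _ => h) ⟨?_, ?_⟩ ?_
  · intro x y
    funext w
    rw [hZ x y]
    have : decide ((zero : Z.carrier) = w ∧ w ≠ zero) = false := by
      apply decide_eq_false
      rintro ⟨rfl, h2⟩
      exact h2 rfl
    rw [this]
    rfl
  · funext w
    have : decide ((zero : Z.carrier) = w ∧ w ≠ zero) = false := by
      apply decide_eq_false
      rintro ⟨rfl, h2⟩
      exact h2 rfl
    rw [this]
    rfl
  · intro x y hxy
    by_contra hne
    have h1 : decide (x = x ∧ x ≠ zero) = decide (y = x ∧ x ≠ zero) :=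
      congrArg ULift.down (congrFun hxy x)
    have h2 : decide (x = y ∧ y ≠ zero) = decide (y = y ∧ y ≠ zero) :=
      congrArg ULift.down (congrFun hxy y)
    rw [decide_eq_decide] at h1 h2
    by_cases hx : x = zero
    · have hy : y ≠ zero := fun hy => hne (hx.trans hy.symm)
      exact hne (h2.2 ⟨rfl, hy⟩).1
    · exact hne (h1.1 ⟨rfl, hx⟩).1.symm

/-- If a variety omits `ZM` then it satisfies `x'' ≈ x`. -/
theorem neg_neg_of_not_ZM_subset {X : Set IZAlg.{u}} (hX : IsVariety X)
    (h : ¬ ZM.{u} ⊆ X) (A : IZAlg.{u}) (hA : A ∈ X) (a : A.carrier) :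
    neg (neg a) = a := by
  classical
  by_contra hne
  apply h
  apply ZM_subset_of_twoZM_mem hX
  -- the subalgebra generated by `a` lies in `X`
  have hB : (⟨{x : A.carrier // Gen a x}⟩ : IZAlg.{u}) ∈ X :=
    hX.sub ⟨{x : A.carrier // Gen a x}⟩ A Subtype.val hA ⟨fun _ _ => rfl, rfl⟩
      Subtype.val_injective
  refine hX.image _ twoZM.{u}
    (fun x : {x : A.carrier // Gen a x} => (⟨decide (x.1 = a)⟩ : ULift.{u} Bool)) hB ⟨?_, ?_⟩ ?_
  · rintro ⟨x, hx⟩ ⟨y, hy⟩
    have : decide (imp x y = a) = false :=
      decide_eq_false fun h' => hne (neg_neg_of_imp_eq hx h')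
    change (⟨decide (imp x y = a)⟩ : ULift.{u} Bool) = ⟨false⟩
    rw [this]
  · have : decide ((zero : A.carrier) = a) = false :=
      decide_eq_false fun h' => hne (by rw [← h']; exact zero_neg_neg)
    change (⟨decide ((zero : A.carrier) = a)⟩ : ULift.{u} Bool) = ⟨false⟩
    rw [this]
  · rintro ⟨b⟩
    cases b
    · refine ⟨⟨zero, Gen.zero⟩, ?_⟩
      have : decide ((zero : A.carrier) = a) = false :=
        decide_eq_false fun h' => hne (by rw [← h']; exact zero_neg_neg)
      change (⟨decide ((zero : A.carrier) = a)⟩ : ULift.{u} Bool) = ⟨false⟩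
      rw [this]
    · refine ⟨⟨a, Gen.base⟩, ?_⟩
      change (⟨decide (a = a)⟩ : ULift.{u} Bool) = ⟨true⟩
      simp

/-- The class of implication zroupoids satisfying `x'' ≈ x`. -/
def I20 : Set IZAlg.{u} := {A | ∀ x : A.carrier, neg (neg x) = x}

theorem isVariety_I20 : IsVariety I20.{u} where
  image A B f hA hf hs := by
    intro y
    obtain ⟨x, rfl⟩ := hs y
    have := congrArg f (hA x)
    simpa [neg, hf.map_imp, hf.map_zero] using this
  sub A B f hB hf hi := by
    intro x
    apply hi
    have := hB (f x)
    simpa [neg, hf.map_imp, hf.map_zero] using this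
  prod I A hA := by
    intro x
    funext i
    exact hA i (x i)

/-- **Main theorem** (Q1). If `X` and `Y` are varieties of implication zroupoids neither of which
contains `ZM`, then their join does not contain `ZM`. -/
theorem result (X Y : Set IZAlg.{u}) (hX : IsVariety X) (hY : IsVariety Y)
    (hZX : ¬ ZM.{u} ⊆ X) (hZY : ¬ ZM.{u} ⊆ Y) : ¬ ZM.{u} ⊆ join X Y := by
  intro h
  have hmem : twoZM.{u} ∈ I20.{u} := by
    refine h twoZM_mem_ZM I20 isVariety_I20 ?_
    rintro A (hA | hA)
    · exact fun x => neg_neg_of_not_ZM_subset hX hZX A hA x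
    · exact fun x => neg_neg_of_not_ZM_subset hY hZY A hA x
  have := congrArg ULift.down (hmem (⟨true⟩ : ULift.{u} Bool))
  exact Bool.false_ne_true this

end Pool.Agent.Results.MP_5bed1d_al.ZMJoin
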